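import Pool.Agent.H29.UDP.TLat
import Pool.Agent.H67.LD.EXQ

/-!
# The second Griffiths inequality (Ginibre)
-/

set_option autoImplicit false

open MeasureTheory Filter Topology
open scoped ENNReal

namespace Pool.Agent.H54.UDP

open Pool.Agent.H29.UDP
open Pool.Agent.H67.LD (mon Cl Cl_add Cl_smul Cl_sum Cl_mul Cl_zero mon_meas mon_bd pf_EXQ)

noncomputable section

/-! ### one site -/

/-- the weight of one site -/
def w2 (g c : ℝ) (p : ℝ × ℝ) : ℝ :=
  Real.exp (-(g * (p.1 ^ 4 + p.2 ^ 4) + c * (p.1 ^ 2 + p.2 ^ 2)))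

theorem two_dim (g c : ℝ) (m n : ℕ) :
    0 ≤ ∫ p : ℝ × ℝ, (p.1 + p.2) ^ m * (p.2 - p.1) ^ n * w2 g c p := by
  rcases Nat.even_or_odd n with hn | hn
  · rcases Nat.even_or_odd m with hm | hm
    · exact integral_nonneg fun p => mul_nonneg (mul_nonneg (hm.pow_nonneg _) (hn.pow_nonneg _))
        (Real.exp_pos _).le
    · have h1 := integral_neg_eq_self
        (fun p : ℝ × ℝ => (p.1 + p.2) ^ m * (p.2 - p.1) ^ n * w2 g c p) volume
      have h2 : ∀ p : ℝ × ℝ, ((-p).1 + (-p).2) ^ m * ((-p).2 - (-p).1) ^ n * w2 g c (-p) =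
          -((p.1 + p.2) ^ m * (p.2 - p.1) ^ n * w2 g c p) := by
        intro p
        have e1 : (-p).1 + (-p).2 = -(p.1 + p.2) := by
          simp only [Prod.fst_neg, Prod.snd_neg]
          ring
        have e2 : (-p).2 - (-p).1 = -(p.2 - p.1) := by
          simp only [Prod.fst_neg, Prod.snd_neg]
          ring
        have e3 : w2 g c (-p) = w2 g c p := by
          unfold w2
          simp only [Prod.fst_neg, Prod.snd_neg]
          congr 1
          ring
        rw [e1, e2, e3, hm.neg_pow, hn.neg_pow]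
        ring
      simp only [h2] at h1
      rw [integral_neg] at h1
      linarith
  · have h1 := integral_prod_swap (μ := (volume : Measure ℝ)) (ν := (volume : Measure ℝ))
      (fun p : ℝ × ℝ => (p.1 + p.2) ^ m * (p.2 - p.1) ^ n * w2 g c p)
    have h2 : ∀ p : ℝ × ℝ, (p.swap.1 + p.swap.2) ^ m * (p.swap.2 - p.swap.1) ^ n * w2 g c p.swap =
        -((p.1 + p.2) ^ m * (p.2 - p.1) ^ n * w2 g c p) := by
      intro p
      have e1 : p.swap.1 + p.swap.2 = p.1 + p.2 := by
        simp only [Prod.fst_swap, Prod.snd_swap]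
        ring
      have e2 : p.swap.2 - p.swap.1 = -(p.2 - p.1) := by
        simp only [Prod.fst_swap, Prod.snd_swap]
        ring
      have e3 : w2 g c p.swap = w2 g c p := by
        unfold w2
        simp only [Prod.fst_swap, Prod.snd_swap]
        congr 1
        ring
      rw [e1, e2, e3, hn.neg_pow]
      ring
    simp only [h2] at h1
    rw [integral_neg] at h1
    have h3 : (volume : Measure (ℝ × ℝ)) = (volume : Measure ℝ).prod volume := rfl
    rw [h3]
    linarith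

section
variable {ι : Type} [Fintype ι]

/-- sums and differences -/
def yy : ι ⊕ ι → (ι → ℝ × ℝ) → ℝ
  | .inl x, z => (z x).1 + (z x).2
  | .inr x, z => (z x).2 - (z x).1

/-- the single site energies -/
def UU (g c : ι → ℝ) (z : ι → ℝ × ℝ) : ℝ :=
  ∑ x, (g x * ((z x).1 ^ 4 + (z x).2 ^ 4) + c x * ((z x).1 ^ 2 + (z x).2 ^ 2))

/-- the reference measure -/
def nu (g c : ι → ℝ) : Measure (ι → ℝ × ℝ) :=
  volume.withDensity (fun z => ENNReal.ofReal (Real.exp (-UU g c z)))

theorem yy_meas (k : ι ⊕ ι) : Measurable (yy k) := by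
  rcases k with x | x
  · exact (measurable_pi_apply x).fst.add (measurable_pi_apply x).snd
  · exact (measurable_pi_apply x).snd.sub (measurable_pi_apply x).fst

theorem UU_meas (g c : ι → ℝ) : Measurable (UU g c) := by
  unfold UU
  refine Finset.measurable_sum _ fun x _ => ?_
  have h1 : Measurable fun z : ι → ℝ × ℝ => (z x).1 := (measurable_pi_apply x).fst
  have h2 : Measurable fun z : ι → ℝ × ℝ => (z x).2 := (measurable_pi_apply x).snd
  exact (((h1.pow_const 4).add (h2.pow_const 4)).const_mul _).add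
    (((h1.pow_const 2).add (h2.pow_const 2)).const_mul _)

theorem UU_meas' (g c : ι → ℝ) :
    Measurable (fun z : ι → ℝ × ℝ => ENNReal.ofReal (Real.exp (-UU g c z))) :=
  (UU_meas g c).neg.exp.ennreal_ofReal

theorem nu_tr (g c : ι → ℝ) (F : (ι → ℝ × ℝ) → ℝ) :
    ∫ z, F z ∂(nu g c) = ∫ z, F z * Real.exp (-UU g c z) := by
  unfold nu
  rw [integral_withDensity_eq_integral_toReal_smul (UU_meas' g c)
    (Filter.Eventually.of_forall fun z => ENNReal.ofReal_lt_top)]
  refine integral_congr_ae (Filter.Eventually.of_forall fun z => ?_)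
  simp only [smul_eq_mul]
  rw [ENNReal.toReal_ofReal (Real.exp_pos _).le, mul_comm]

theorem nu_int (g c : ι → ℝ) (F : (ι → ℝ × ℝ) → ℝ) :
    Integrable F (nu g c) ↔ Integrable (fun z => Real.exp (-UU g c z) * F z) := by
  unfold nu
  rw [integrable_withDensity_iff_integrable_smul' (UU_meas' g c)
    (Filter.Eventually.of_forall fun z => ENNReal.ofReal_lt_top)]
  simp only [smul_eq_mul, ENNReal.toReal_ofReal (Real.exp_pos _).le]

theorem nu_mon (g c : ι → ℝ) (m : ι ⊕ ι → ℕ) : 0 ≤ ∫ z, ∏ k, yy k z ^ m k ∂(nu g c) := by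
  rw [nu_tr]
  have h1 : ∀ z : ι → ℝ × ℝ, (∏ k, yy k z ^ m k) * Real.exp (-UU g c z) =
      ∏ x, (((z x).1 + (z x).2) ^ m (.inl x) * ((z x).2 - (z x).1) ^ m (.inr x) *
        w2 (g x) (c x) (z x)) := by
    intro z
    rw [Fintype.prod_sum_type, ← Finset.prod_mul_distrib, Finset.prod_mul_distrib (f := fun x =>
      ((z x).1 + (z x).2) ^ m (.inl x) * ((z x).2 - (z x).1) ^ m (.inr x))]
    congr 1
    unfold UU w2
    rw [← Real.exp_sum, Finset.sum_neg_distrib]
  simp only [h1]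
  rw [integral_fintype_prod_volume_eq_prod (fun x (p : ℝ × ℝ) => (p.1 + p.2) ^ m (.inl x) *
    (p.2 - p.1) ^ m (.inr x) * w2 (g x) (c x) p)]
  exact Finset.prod_nonneg fun x _ => two_dim _ _ _ _

/-! ### two copies -/

theorem pair_int (F G : (ι → ℝ) → ℝ) :
    ∫ z : ι → ℝ × ℝ, F (fun x => (z x).1) * G (fun x => (z x).2) = (∫ φ, F φ) * ∫ φ, G φ := by
  have h1 := (volume_measurePreserving_arrowProdEquivProdArrow ℝ ℝ ι).integral_comp
    (MeasurableEquiv.measurableEmbedding _) (fun p : (ι → ℝ) × (ι → ℝ) => F p.1 * G p.2)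
  have h2 : ∫ p : (ι → ℝ) × (ι → ℝ), F p.1 * G p.2 = (∫ φ, F φ) * ∫ φ, G φ :=
    integral_prod_mul (μ := (volume : Measure (ι → ℝ))) (ν := (volume : Measure (ι → ℝ))) F G
  rw [← h2, ← h1]
  rfl

theorem pair_integrable {F G : (ι → ℝ) → ℝ} (hF : Integrable F) (hG : Integrable G) :
    Integrable (fun z : ι → ℝ × ℝ => F (fun x => (z x).1) * G (fun x => (z x).2)) := by
  have h1 : Integrable (fun p : (ι → ℝ) × (ι → ℝ) => F p.1 * G p.2)
      ((volume : Measure (ι → ℝ)).prod volume) := hF.mul_prod hG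
  exact (volume_measurePreserving_arrowProdEquivProdArrow ℝ ℝ ι).integrable_comp_of_integrable h1

theorem nu_exp (hGLW : T_GLW) (g c : ι → ℝ) (hg : ∀ x, 0 < g x) (C : ℝ) :
    Integrable (fun z => Real.exp (C * ∑ k, yy k z ^ 2)) (nu g c) := by
  rw [nu_int]
  have h1 := (hGLW ι (fun _ _ => 0) g c hg).1 (2 * C)
  refine (pair_integrable h1 h1).congr (Filter.Eventually.of_forall fun z => ?_)
  simp only
  rw [← Real.exp_add, ← Real.exp_add]
  congr 1
  unfold gH UU
  rw [Fintype.sum_sum_type]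
  simp only [yy, zero_mul, Finset.sum_const_zero, mul_zero, sub_zero]
  rw [← Finset.sum_add_distrib, Finset.mul_sum, Finset.mul_sum, Finset.mul_sum,
    ← Finset.sum_sub_distrib, ← Finset.sum_sub_distrib, ← Finset.sum_add_distrib,
    ← Finset.sum_neg_distrib, ← Finset.sum_add_distrib]
  exact Finset.sum_congr rfl fun x _ => by ring

/-! ### the couplings -/

open Classical in
/-- the coefficients in the new variables -/
def qq (J J' : ι → ι → ℝ) (b b' : ι → ℝ) : ι ⊕ ι → ι ⊕ ι → ℝ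
  | .inl x, .inl y => (J x y + J' x y) / 8
  | .inr x, .inr y => (J x y + J' x y) / 8
  | .inl x, .inr y => (J' x y - J x y) / 8 + if x = y then (b x - b' x) / 2 else 0
  | .inr x, .inl y => (J' x y - J x y) / 8

/-- the interaction -/
def QQ (J J' : ι → ι → ℝ) (b b' : ι → ℝ) (z : ι → ℝ × ℝ) : ℝ :=
  ∑ k, ∑ l, qq J J' b b' k l * yy k z * yy l z

theorem energy (J J' : ι → ι → ℝ) (g b b' : ι → ℝ) (z : ι → ℝ × ℝ) :
    -gH J g b (fun x => (z x).1) + -gH J' g b' (fun x => (z x).2) =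
      -UU g (fun x => (b x + b' x) / 2) z + QQ J J' b b' z := by
  classical
  unfold QQ gH UU
  rw [Fintype.sum_sum_type]
  simp only [Fintype.sum_sum_type, qq, yy]
  have h1 : ∀ x, ∑ y, ((J' x y - J x y) / 8 + if x = y then (b x - b' x) / 2 else 0) *
      ((z x).1 + (z x).2) * ((z y).2 - (z y).1) =
      ∑ y, (J' x y - J x y) / 8 * ((z x).1 + (z x).2) * ((z y).2 - (z y).1) +
        (b x - b' x) / 2 * ((z x).1 + (z x).2) * ((z x).2 - (z x).1) := by
    intro x
    simp only [add_mul, Finset.sum_add_distrib, ite_mul, zero_mul, Finset.sum_ite_eq,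
      Finset.mem_univ, if_true]
  simp only [h1, Finset.sum_add_distrib]
  have h2 : ∑ x, ∑ y, (J x y + J' x y) / 8 * ((z x).1 + (z x).2) * ((z y).1 + (z y).2) +
      (∑ x, ∑ y, (J' x y - J x y) / 8 * ((z x).1 + (z x).2) * ((z y).2 - (z y).1)) +
      (∑ x, ∑ y, (J' x y - J x y) / 8 * ((z x).2 - (z x).1) * ((z y).1 + (z y).2) +
      ∑ x, ∑ y, (J x y + J' x y) / 8 * ((z x).2 - (z x).1) * ((z y).2 - (z y).1)) =
      1 / 2 * ∑ x, ∑ y, J x y * (z x).1 * (z y).1 +
        1 / 2 * ∑ x, ∑ y, J' x y * (z x).2 * (z y).2 := by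
    simp only [Finset.mul_sum, ← Finset.sum_add_distrib]
    exact Finset.sum_congr rfl fun x _ => Finset.sum_congr rfl fun y _ => by ring
  have h3 : ∑ x, (b x - b' x) / 2 * ((z x).1 + (z x).2) * ((z x).2 - (z x).1) =
      -∑ x, b x * (z x).1 ^ 2 - ∑ x, b' x * (z x).2 ^ 2 +
        ∑ x, (b x + b' x) / 2 * ((z x).1 ^ 2 + (z x).2 ^ 2) := by
    rw [← Finset.sum_neg_distrib, ← Finset.sum_sub_distrib, ← Finset.sum_add_distrib]
    exact Finset.sum_congr rfl fun x _ => by ring
  have h4 : ∑ x, g x * ((z x).1 ^ 4 + (z x).2 ^ 4) =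
      ∑ x, g x * (z x).1 ^ 4 + ∑ x, g x * (z x).2 ^ 4 := by
    rw [← Finset.sum_add_distrib]
    exact Finset.sum_congr rfl fun x _ => by ring
  rw [h4]
  linarith

theorem QQ_meas (J J' : ι → ι → ℝ) (b b' : ι → ℝ) : Measurable (QQ J J' b b') := by
  unfold QQ
  exact Finset.measurable_sum _ fun k _ => Finset.measurable_sum _ fun l _ =>
    (measurable_const.mul (yy_meas k)).mul (yy_meas l)

theorem cl_exp (hGLW : T_GLW) (J J' : ι → ι → ℝ) (g b b' : ι → ℝ) (hg : ∀ x, 0 < g x)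
    (hJ : ∀ x y, 0 ≤ J x y) (hJJ : ∀ x y, J x y ≤ J' x y) (hb : ∀ x, b' x ≤ b x) (c : ι → ℝ) :
    Cl (nu g c) yy (fun z => Real.exp (QQ J J' b b' z)) := by
  classical
  have hq : ∀ k l, 0 ≤ qq J J' b b' k l := by
    rintro (x | x) (y | y)
    · exact div_nonneg (add_nonneg (hJ x y) ((hJ x y).trans (hJJ x y))) (by norm_num)
    · refine add_nonneg (div_nonneg (sub_nonneg.2 (hJJ x y)) (by norm_num)) ?_
      split_ifs
      · exact div_nonneg (sub_nonneg.2 (hb x)) (by norm_num)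
      · exact le_rfl
    · exact div_nonneg (sub_nonneg.2 (hJJ x y)) (by norm_num)
    · exact div_nonneg (add_nonneg (hJ x y) ((hJ x y).trans (hJJ x y))) (by norm_num)
  intro m
  refine ⟨?_, pf_EXQ _ (nu g c) (ι ⊕ ι) yy (qq J J' b b') yy_meas (nu_exp hGLW g c hg)
    (nu_mon g c) hq m⟩
  have hQ : ∀ z, QQ J J' b b' z ≤ (∑ k, ∑ l, qq J J' b b' k l) * ∑ k, yy k z ^ 2 := by
    intro z
    unfold QQ
    simp only [Finset.sum_mul]
    refine Finset.sum_le_sum fun k _ => Finset.sum_le_sum fun l _ => ?_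
    rw [mul_assoc]
    refine mul_le_mul_of_nonneg_left ?_ (hq k l)
    have h1 : yy k z ^ 2 ≤ ∑ k, yy k z ^ 2 :=
      Finset.single_le_sum (f := fun k => yy k z ^ 2) (fun i _ => sq_nonneg _) (Finset.mem_univ k)
    have h2 : yy l z ^ 2 ≤ ∑ k, yy k z ^ 2 :=
      Finset.single_le_sum (f := fun k => yy k z ^ 2) (fun i _ => sq_nonneg _) (Finset.mem_univ l)
    nlinarith [sq_nonneg (yy k z - yy l z)]
  refine Integrable.mono' (nu_exp hGLW g c hg ((∑ k, (m k : ℝ)) + ∑ k, ∑ l, qq J J' b b' k l))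
    ((mon_meas yy yy_meas m).mul (QQ_meas J J' b b').exp).aestronglyMeasurable
    (Filter.Eventually.of_forall fun z => ?_)
  rw [Real.norm_eq_abs, abs_mul, Real.abs_exp, add_mul, Real.exp_add]
  exact mul_le_mul (mon_bd yy m z) (Real.exp_le_exp.2 (hQ z)) (Real.exp_nonneg _)
    (Real.exp_nonneg _)

/-! ### the products -/

theorem cl_congr {ν : Measure (ι → ℝ × ℝ)} {f f' : (ι → ℝ × ℝ) → ℝ} (hf : Cl ν yy f)
    (h : ∀ z, f z = f' z) : Cl ν yy f' := by
  have h1 : f = f' := funext h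
  rw [← h1]
  exact hf

theorem cl_lin {ν : Measure (ι → ℝ × ℝ)} {f : (ι → ℝ × ℝ) → ℝ} (hf : Cl ν yy f) (c : ι → ℝ)
    (hc : ∀ x, 0 ≤ c x) (s : ι → ι ⊕ ι) : Cl ν yy (fun z => (∑ x, c x * yy (s x) z) * f z) := by
  have h1 : (fun z => (∑ x, c x * yy (s x) z) * f z) =
      fun z => ∑ x, c x * (yy (s x) z * f z) := by
    funext z
    rw [Finset.sum_mul]
    exact Finset.sum_congr rfl fun x _ => by ring
  rw [h1]
  exact Cl_sum _ _ fun x _ => Cl_smul (Cl_mul hf (s x)) (hc x)

theorem cl_prod {ν : Measure (ι → ℝ × ℝ)} {f : (ι → ℝ × ℝ) → ℝ} (hf : Cl ν yy f) {n : ℕ}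
    (c : Fin n → ι → ℝ) (hc : ∀ i x, 0 ≤ c i x) (s : Finset (Fin n)) :
    Cl ν yy (fun z => ((∏ i ∈ s, ∑ x, c i x * (2 * (z x).2)) -
      ∏ i ∈ s, ∑ x, c i x * (2 * (z x).1)) * f z) ∧
    Cl ν yy (fun z => ((∏ i ∈ s, ∑ x, c i x * (2 * (z x).2)) +
      ∏ i ∈ s, ∑ x, c i x * (2 * (z x).1)) * f z) := by
  classical
  induction s using Finset.induction_on with
  | empty =>
    refine ⟨?_, ?_⟩
    · have h1 : (fun z : ι → ℝ × ℝ => ((∏ i ∈ (∅ : Finset (Fin n)), ∑ x, c i x * (2 * (z x).2)) -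
          ∏ i ∈ (∅ : Finset (Fin n)), ∑ x, c i x * (2 * (z x).1)) * f z) = fun _ => 0 := by
        funext z
        simp
      rw [h1]
      exact Cl_zero
    · have h1 : (fun z : ι → ℝ × ℝ => ((∏ i ∈ (∅ : Finset (Fin n)), ∑ x, c i x * (2 * (z x).2)) +
          ∏ i ∈ (∅ : Finset (Fin n)), ∑ x, c i x * (2 * (z x).1)) * f z) = fun z => 2 * f z := by
        funext z
        simp only [Finset.prod_empty]
        ring
      rw [h1]
      exact Cl_smul hf (by norm_num)
  | insert i s hi ih =>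
    obtain ⟨ihm, ihp⟩ := ih
    have ha : ∀ z : ι → ℝ × ℝ, ∑ x, c i x * (2 * (z x).2) =
        ∑ x, c i x * yy (.inl x) z + ∑ x, c i x * yy (.inr x) z := by
      intro z
      rw [← Finset.sum_add_distrib]
      exact Finset.sum_congr rfl fun x _ => by simp only [yy]; ring
    have hb : ∀ z : ι → ℝ × ℝ, ∑ x, c i x * (2 * (z x).1) =
        ∑ x, c i x * yy (.inl x) z - ∑ x, c i x * yy (.inr x) z := by
      intro z
      rw [← Finset.sum_sub_distrib]
      exact Finset.sum_congr rfl fun x _ => by simp only [yy]; ring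
    have k1 := cl_lin ihm (c i) (hc i) Sum.inl
    have k2 := cl_lin ihp (c i) (hc i) Sum.inr
    have k3 := cl_lin ihp (c i) (hc i) Sum.inl
    have k4 := cl_lin ihm (c i) (hc i) Sum.inr
    refine ⟨?_, ?_⟩
    · refine cl_congr (Cl_add k1 k2) fun z => ?_
      simp only [Finset.prod_insert hi, ha, hb]
      ring
    · refine cl_congr (Cl_add k3 k4) fun z => ?_
      simp only [Finset.prod_insert hi, ha, hb]
      ring

/-- a product of linear forms is integrable -/
theorem obs_int (hGLW : T_GLW) (J : ι → ι → ℝ) (g b : ι → ℝ) (hg : ∀ x, 0 < g x) {n : ℕ}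
    (c : Fin n → ι → ℝ) (hc : ∀ i x, 0 ≤ c i x) :
    Integrable (fun φ : ι → ℝ => (∏ i, ∑ x, c i x * φ x) * Real.exp (-gH J g b φ)) := by
  have hm : Measurable (fun φ : ι → ℝ => gH J g b φ) := by
    unfold gH
    refine Measurable.sub ?_ ?_
    · exact Finset.measurable_sum _ fun x _ => (((measurable_pi_apply x).pow_const 4).const_mul
        _).add (((measurable_pi_apply x).pow_const 2).const_mul _)
    · exact (Finset.measurable_sum _ fun x _ => Finset.measurable_sum _ fun y _ =>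
        ((measurable_pi_apply x).const_mul _).mul (measurable_pi_apply y)).const_mul _
  refine Integrable.mono' (((hGLW ι J g b hg).1 n).const_mul (∏ i, ∑ x, c i x)) ?_
    (Filter.Eventually.of_forall fun φ => ?_)
  · exact ((Finset.measurable_prod _ fun i _ => Finset.measurable_sum _ fun x _ =>
      (measurable_pi_apply x).const_mul _).mul hm.neg.exp).aestronglyMeasurable
  · rw [Real.norm_eq_abs, abs_mul, Real.abs_exp, Finset.abs_prod, sub_eq_add_neg, Real.exp_add,
      ← mul_assoc]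
    refine mul_le_mul_of_nonneg_right ?_ (Real.exp_nonneg _)
    have h1 : Real.exp ((n : ℝ) * ∑ x, φ x ^ 2) = ∏ _i : Fin n, Real.exp (∑ x, φ x ^ 2) := by
      rw [Finset.prod_const, Finset.card_univ, Fintype.card_fin, Real.exp_nat_mul]
    rw [h1, ← Finset.prod_mul_distrib]
    refine Finset.prod_le_prod (fun i _ => abs_nonneg _) fun i _ => ?_
    refine (Finset.abs_sum_le_sum_abs _ _).trans ?_
    rw [Finset.sum_mul]
    refine Finset.sum_le_sum fun x _ => ?_
    rw [abs_mul, abs_of_nonneg (hc i x)]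
    refine mul_le_mul_of_nonneg_left ?_ (hc i x)
    have h2 : φ x ^ 2 ≤ ∑ x, φ x ^ 2 :=
      Finset.single_le_sum (f := fun x => φ x ^ 2) (fun i _ => sq_nonneg _) (Finset.mem_univ x)
    have h3 : |φ x| ≤ φ x ^ 2 + 1 := by
      rw [← sq_abs]
      nlinarith [sq_nonneg (|φ x| - 1), abs_nonneg (φ x)]
    have h4 := Real.add_one_le_exp (∑ x, φ x ^ 2)
    linarith

end

theorem pf_MO2 (hGLW : T_GLW) : T_MO2 := by
  intro ι _ J J' g b b' hg hJ hJJ hb n c hc
  obtain ⟨-, hZ, -, hI, -⟩ := hGLW ι J g b hg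
  obtain ⟨-, hZ', -, hI', -⟩ := hGLW ι J' g b' hg
  rw [hI, hI', div_le_div_iff₀ hZ hZ']
  have hAE := obs_int hGLW J g b hg c hc
  have hAE' := obs_int hGLW J' g b' hg c hc
  have hE : Integrable (fun φ : ι → ℝ => Real.exp (-gH J g b φ)) := by
    have := (hGLW ι J g b hg).1 0
    simpa [sub_eq_add_neg] using this
  have hE' : Integrable (fun φ : ι → ℝ => Real.exp (-gH J' g b' φ)) := by
    have := (hGLW ι J' g b' hg).1 0
    simpa [sub_eq_add_neg] using this
  have h1 := ((cl_prod (cl_exp hGLW J J' g b b' hg hJ hJJ hb (fun x => (b x + b' x) / 2)) c hc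
    Finset.univ).1 0).2
  rw [nu_tr] at h1
  have h2 : ∀ z : ι → ℝ × ℝ, (mon yy 0 z * (((∏ i, ∑ x, c i x * (2 * (z x).2)) -
      ∏ i, ∑ x, c i x * (2 * (z x).1)) * Real.exp (QQ J J' b b' z))) *
      Real.exp (-UU g (fun x => (b x + b' x) / 2) z) =
      2 ^ n * (Real.exp (-gH J g b fun x => (z x).1) *
        ((∏ i, ∑ x, c i x * (z x).2) * Real.exp (-gH J' g b' fun x => (z x).2)) -
      ((∏ i, ∑ x, c i x * (z x).1) * Real.exp (-gH J g b fun x => (z x).1)) *
        Real.exp (-gH J' g b' fun x => (z x).2)) := by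
    intro z
    have e1 : mon yy 0 z = 1 := by
      unfold mon
      simp
    have e2 : ∏ i, ∑ x, c i x * (2 * (z x).2) = 2 ^ n * ∏ i, ∑ x, c i x * (z x).2 := by
      have : ∀ i, ∑ x, c i x * (2 * (z x).2) = 2 * ∑ x, c i x * (z x).2 := fun i => by
        rw [Finset.mul_sum]
        exact Finset.sum_congr rfl fun x _ => by ring
      simp only [this]
      rw [Finset.prod_mul_distrib, Finset.prod_const, Finset.card_univ, Fintype.card_fin]
    have e3 : ∏ i, ∑ x, c i x * (2 * (z x).1) = 2 ^ n * ∏ i, ∑ x, c i x * (z x).1 := by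
      have : ∀ i, ∑ x, c i x * (2 * (z x).1) = 2 * ∑ x, c i x * (z x).1 := fun i => by
        rw [Finset.mul_sum]
        exact Finset.sum_congr rfl fun x _ => by ring
      simp only [this]
      rw [Finset.prod_mul_distrib, Finset.prod_const, Finset.card_univ, Fintype.card_fin]
    have e4 : Real.exp (-UU g (fun x => (b x + b' x) / 2) z) * Real.exp (QQ J J' b b' z) =
        Real.exp (-gH J g b fun x => (z x).1) * Real.exp (-gH J' g b' fun x => (z x).2) := by
      rw [← Real.exp_add, ← Real.exp_add, energy]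
    rw [e1, e2, e3]
    linear_combination (2 ^ n * (∏ i, ∑ x, c i x * (z x).2) -
      2 ^ n * ∏ i, ∑ x, c i x * (z x).1) * e4
  simp only [h2] at h1
  rw [integral_const_mul, integral_sub (pair_integrable hE hAE') (pair_integrable hAE hE'),
    pair_int (fun φ => Real.exp (-gH J g b φ))
      (fun φ => (∏ i, ∑ x, c i x * φ x) * Real.exp (-gH J' g b' φ)),
    pair_int (fun φ => (∏ i, ∑ x, c i x * φ x) * Real.exp (-gH J g b φ))
      (fun φ => Real.exp (-gH J' g b' φ))] at h1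
  have h3 : (0 : ℝ) < 2 ^ n := by positivity
  have h4 := nonneg_of_mul_nonneg_right h1 h3
  linarith

end

end Pool.Agent.H54.UDP
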