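import Pool.Agent.H29.UDP.TLat

/-!
# The maximum over the torus is attained at the constants (chessboard argument)
-/

set_option autoImplicit false

namespace Pool.Agent.H54.UDP

open Pool.Agent.H29.UDP Classical

section
variable {d N : ℕ}

/-- the unit step -/
def st (i : Fin d) (x : Fin d → ZMod N) : Fin d → ZMod N := x + Pi.single i 1

theorem st_same (i : Fin d) (x : Fin d → ZMod N) : st i x i = x i + 1 := by
  simp [st]

theorem st_ne {i l : Fin d} (h : l ≠ i) (x : Fin d → ZMod N) : st i x l = x l := by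
  simp [st, Pi.single_eq_of_ne h]

theorem rfl_same (j : Fin d) (c : ZMod N) (x : Fin d → ZMod N) :
    rfl' j c x j = 2 * c - 1 - x j := by
  simp [rfl']

theorem rfl_ne {j l : Fin d} (h : l ≠ j) (c : ZMod N) (x : Fin d → ZMod N) :
    rfl' j c x l = x l := by
  simp [rfl', Function.update_of_ne h]

theorem rfl_rfl (j : Fin d) (c : ZMod N) (x : Fin d → ZMod N) : rfl' j c (rfl' j c x) = x := by
  funext l
  by_cases hl : l = j
  · subst hl
    rw [rfl_same, rfl_same]
    ring
  · rw [rfl_ne hl, rfl_ne hl]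

theorem rfl_st_ne {i j : Fin d} (h : i ≠ j) (c : ZMod N) (x : Fin d → ZMod N) :
    rfl' j c (st i x) = st i (rfl' j c x) := by
  funext l
  by_cases hl : l = j
  · subst hl
    rw [rfl_same, st_ne h.symm, st_ne h.symm, rfl_same]
  · rw [rfl_ne hl]
    by_cases hi : l = i
    · subst hi
      rw [st_same, st_same, rfl_ne hl]
    · rw [st_ne hi, st_ne hi, rfl_ne hl]

theorem st_rfl_st (j : Fin d) (c : ZMod N) (x : Fin d → ZMod N) :
    st j (rfl' j c (st j x)) = rfl' j c x := by
  funext l
  by_cases hl : l = j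
  · subst hl
    rw [st_same, rfl_same, st_same, rfl_same]
    ring
  · rw [st_ne hl, rfl_ne hl, st_ne hl, rfl_ne hl]

/-- the map on bonds -/
noncomputable def tau (j : Fin d) (c : ZMod N) (i : Fin d) (x : Fin d → ZMod N) :
    Fin d → ZMod N :=
  if i = j then rfl' j c (st j x) else rfl' j c x

theorem tau_inv (j : Fin d) (c : ZMod N) (i : Fin d) : Function.Involutive (tau j c i) := by
  intro x
  unfold tau
  by_cases h : i = j
  · simp only [h, if_true]
    rw [st_rfl_st, rfl_rfl]
  · simp only [h, if_false]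
    exact rfl_rfl j c x

/-- the bond is satisfied -/
noncomputable def bd (h : (Fin d → ZMod N) → ℝ) (i : Fin d) (x : Fin d → ZMod N) : ℕ :=
  if h x = h (st i x) then 1 else 0

theorem bd_le (h : (Fin d → ZMod N) → ℝ) (i : Fin d) (x : Fin d → ZMod N) : bd h i x ≤ 1 := by
  unfold bd
  split_ifs <;> omega

theorem bd_tau (h : (Fin d → ZMod N) → ℝ) (j : Fin d) (c : ZMod N) (i : Fin d)
    (x : Fin d → ZMod N) :
    bd h i (tau j c i x) = if h (rfl' j c x) = h (rfl' j c (st i x)) then 1 else 0 := by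
  unfold bd tau
  by_cases hi : i = j
  · subst hi
    simp only [if_true]
    rw [st_rfl_st]
    simp only [eq_comm]
  · simp only [hi, if_false]
    rw [rfl_st_ne hi]

/-- the other side -/
def Sd (j : Fin d) (c : ZMod N) (x : Fin d → ZMod N) : Prop := N ≤ 2 * (x j - c).val

/-- bonds between the two sides -/
theorem cross [NeZero N] (hN : Even N) (j : Fin d) (c : ZMod N) (i : Fin d) (x : Fin d → ZMod N)
    (h : ¬ (Sd j c x ↔ Sd j c (st i x))) : i = j ∧ rfl' j c x = st i x := by
  have hij : i = j := by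
    by_contra hij
    apply h
    unfold Sd
    rw [st_ne (fun h => hij h.symm)]
  subst hij
  refine ⟨rfl, ?_⟩
  obtain ⟨m, hm⟩ := hN
  have hN0 : 0 < N := Nat.pos_of_ne_zero (NeZero.ne N)
  obtain ⟨y, hy⟩ : ∃ y, y = x i - c := ⟨_, rfl⟩
  have hy1 : st i x i - c = y + 1 := by
    rw [st_same, hy]
    ring
  have hlt : y.val < N := ZMod.val_lt y
  have h2 : (2 * (y.val + 1) : ℕ) = N ∨ (2 * (y.val + 1) : ℕ) = 2 * N := by
    unfold Sd at h
    rw [hy1, ← hy] at h
    have hv : (y + 1).val = if y.val + 1 < N then y.val + 1 else 0 := by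
      rw [ZMod.val_add]
      rcases Nat.lt_or_ge 1 N with h1 | h1
      · rw [ZMod.val_one'' (by omega)]
        split_ifs with h3
        · exact Nat.mod_eq_of_lt h3
        · have : y.val + 1 = N := by omega
          rw [this, Nat.mod_self]
      · omega
    rw [hv] at h
    split_ifs at h with h3
    · by_cases h4 : N ≤ 2 * y.val
      · exact absurd ⟨fun _ => by omega, fun _ => h4⟩ h
      · by_cases h5 : N ≤ 2 * (y.val + 1)
        · left
          omega
        · exact absurd ⟨fun h6 => absurd h6 h4, fun h6 => absurd h6 h5⟩ h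
    · right
      omega
  have h3 : (2 : ZMod N) * (y + 1) = 0 := by
    have h4 : ((2 * (y.val + 1) : ℕ) : ZMod N) = 0 := by
      rcases h2 with h2 | h2
      · rw [h2, ZMod.natCast_self]
      · rw [h2]
        push_cast
        rw [ZMod.natCast_self, mul_zero]
    push_cast at h4
    rwa [ZMod.natCast_zmod_val] at h4
  funext l
  by_cases hl : l = i
  · subst hl
    rw [rfl_same, st_same]
    rw [hy] at h3
    linear_combination -h3
  · rw [rfl_ne hl, st_ne hl]

theorem key [NeZero N] (hN : Even N) (h : (Fin d → ZMod N) → ℝ) (j : Fin d) (c : ZMod N)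
    (i : Fin d) (x : Fin d → ZMod N) :
    bd h i x + bd h i (tau j c i x) ≤
      bd (fun x => h (fdp j c x)) i x + bd (fun x => h (fdm j c x)) i x ∧
    (¬ (Sd j c x ↔ Sd j c (st i x)) → bd (fun x => h (fdp j c x)) i x = 1 ∧
      bd (fun x => h (fdm j c x)) i x = 1) := by
  have hp : ∀ x, fdp j c x = if Sd j c x then rfl' j c x else x := by
    intro x
    unfold fdp Sd
    split_ifs <;> rfl
  have hm : ∀ x, fdm j c x = if Sd j c x then x else rfl' j c x := by
    intro x
    unfold fdm Sd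
    split_ifs <;> rfl
  have hcr : ¬ (Sd j c x ↔ Sd j c (st i x)) → bd (fun x => h (fdp j c x)) i x = 1 ∧
      bd (fun x => h (fdm j c x)) i x = 1 := by
    intro hc
    obtain ⟨rfl, h2⟩ := cross hN j c i x hc
    have h3 : rfl' i c (st i x) = x := by rw [← h2, rfl_rfl]
    unfold bd
    simp only [hp, hm]
    by_cases h4 : Sd i c x
    · have h5 : ¬ Sd i c (st i x) := fun h5 => hc ⟨fun _ => h5, fun _ => h4⟩
      simp only [h4, h5, if_true, if_false, h2, h3, and_self]
    · have h5 : Sd i c (st i x) := by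
        by_contra h5
        exact hc ⟨fun h6 => absurd h6 h4, fun h6 => absurd h6 h5⟩
      simp only [h4, h5, if_true, if_false, h2, h3, and_self]
  refine ⟨?_, hcr⟩
  by_cases hc : Sd j c x ↔ Sd j c (st i x)
  · rw [bd_tau]
    unfold bd
    simp only [hp, hm]
    by_cases h4 : Sd j c x
    · have h5 := hc.1 h4
      simp only [h4, h5, if_true]
      rw [add_comm]
    · have h5 : ¬ Sd j c (st i x) := fun h5 => h4 (hc.2 h5)
      simp only [h4, h5, if_false]
      exact le_rfl
  · rw [(hcr hc).1, (hcr hc).2]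
    have h1 := bd_le h i x
    have h2 := bd_le h i (tau j c i x)
    omega

/-- the number of the satisfied bonds -/
noncomputable def nb [NeZero N] (h : (Fin d → ZMod N) → ℝ) : ℕ := ∑ i, ∑ x, bd h i x

theorem nb_lt [NeZero N] (hN : Even N) (h : (Fin d → ZMod N) → ℝ) (j : Fin d) (c : ZMod N)
    (x₀ : Fin d → ZMod N) (h0 : h x₀ ≠ h (st j x₀)) (hc : ¬ (Sd j c x₀ ↔ Sd j c (st j x₀))) :
    2 * nb h < nb (fun x => h (fdp j c x)) + nb (fun x => h (fdm j c x)) := by
  unfold nb
  rw [two_mul, ← Finset.sum_add_distrib, ← Finset.sum_add_distrib]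
  have hre : ∀ i, ∑ x, bd h i x = ∑ x, bd h i (tau j c i x) := fun i =>
    (Equiv.sum_comp (Function.Involutive.toPerm _ (tau_inv j c i)) (bd h i)).symm
  have hs : ∀ i, ∑ x, bd h i x + ∑ x, bd h i x = ∑ x, (bd h i x + bd h i (tau j c i x)) := by
    intro i
    rw [Finset.sum_add_distrib, ← hre]
  refine Finset.sum_lt_sum (fun i _ => ?_) ⟨j, Finset.mem_univ _, ?_⟩
  · rw [hs, ← Finset.sum_add_distrib]
    exact Finset.sum_le_sum fun x _ => (key hN h j c i x).1
  · rw [hs, ← Finset.sum_add_distrib]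
    refine Finset.sum_lt_sum (fun x _ => (key hN h j c j x).1) ⟨x₀, Finset.mem_univ _, ?_⟩
    rw [((key hN h j c j x₀).2 hc).1, ((key hN h j c j x₀).2 hc).2]
    have h1 : bd h j x₀ = 0 := by
      unfold bd
      rw [if_neg h0]
    have h2 := bd_le h j (tau j c j x₀)
    omega

/-- functions which are constant along all bonds are constant -/
theorem const_of [NeZero N] (h : (Fin d → ZMod N) → ℝ) (hh : ∀ i x, h x = h (st i x)) (x : Fin d → ZMod N) :
    h x = h 0 := by
  have h1 : ∀ (i : Fin d) (k : ℕ) (x : Fin d → ZMod N), h (x + Pi.single i (k : ZMod N)) = h x := by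
    intro i k
    induction k with
    | zero =>
      intro x
      simp
    | succ k ih =>
      intro x
      have h2 : x + Pi.single i ((k + 1 : ℕ) : ZMod N) = st i (x + Pi.single i (k : ZMod N)) := by
        unfold st
        rw [add_assoc, ← Pi.single_add]
        push_cast
        rfl
      rw [h2, ← hh, ih]
  have h2 : ∀ (i : Fin d) (a : ZMod N) (x : Fin d → ZMod N), h (x + Pi.single i a) = h x := by
    intro i a x
    have := h1 i a.val x
    rwa [ZMod.natCast_zmod_val] at this
  have h3 : ∀ s : Finset (Fin d), h (∑ i ∈ s, Pi.single i (x i)) = h 0 := by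
    intro s
    induction s using Finset.induction_on with
    | empty => simp
    | insert a s ha ih => rw [Finset.sum_insert ha, add_comm, h2, ih]
  have := h3 Finset.univ
  rwa [Finset.univ_sum_single] at this

end

theorem pf_TMX : T_TMX := by
  intro d N _ hN Z hZ0 hZ hc h
  obtain ⟨S, hS⟩ : ∃ S : Finset ((Fin d → ZMod N) → ℝ), ∀ f, f ∈ S ↔ ∀ x, ∃ y, h y = f x :=
    ⟨Fintype.piFinset fun _ => Finset.univ.image h, fun f => by simp [Fintype.mem_piFinset]⟩
  have hhS : h ∈ S := (hS h).2 fun x => ⟨x, rfl⟩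
  obtain ⟨f₀, hf₀, hmax⟩ := S.exists_max_image Z ⟨h, hhS⟩
  rcases (hZ0 f₀).eq_or_lt with h0 | hpos
  · exact ((hmax h hhS).trans h0.symm.le).trans (hZ0 _)
  obtain ⟨f, hf, hfm⟩ := (S.filter fun f => Z f = Z f₀).exists_max_image nb
    ⟨f₀, Finset.mem_filter.2 ⟨hf₀, rfl⟩⟩
  obtain ⟨hfS, hfZ⟩ := Finset.mem_filter.1 hf
  have hcl : ∀ g : (Fin d → ZMod N) → (Fin d → ZMod N), (fun x => f (g x)) ∈ S := fun g =>
    (hS _).2 fun x => (hS f).1 hfS (g x)
  by_cases hcon : ∀ i x, f x = f (st i x)
  · have h1 : f = fun _ => f 0 := funext fun x => const_of f hcon x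
    calc Z h ≤ Z f₀ := hmax h hhS
      _ = Z f := hfZ.symm
      _ = Z (fun _ => f 0) := by rw [← h1]
      _ = _ := hc _
  · exfalso
    push Not at hcon
    obtain ⟨j, x₀, hx₀⟩ := hcon
    have hN0 : 0 < N := Nat.pos_of_ne_zero (NeZero.ne N)
    obtain ⟨m, hm⟩ := hN
    have hcr : ¬ (Sd j (x₀ j + 1) x₀ ↔ Sd j (x₀ j + 1) (st j x₀)) := by
      have h1 : Sd j (x₀ j + 1) x₀ := by
        unfold Sd
        have h2 : x₀ j - (x₀ j + 1) = -1 := by ring
        rw [h2]
        obtain ⟨n, rfl⟩ : ∃ n, N = n + 1 := ⟨N - 1, by omega⟩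
        rw [ZMod.val_neg_one]
        omega
      have h2 : ¬ Sd j (x₀ j + 1) (st j x₀) := by
        unfold Sd
        rw [st_same, sub_self, ZMod.val_zero]
        omega
      exact fun h3 => h2 (h3.1 h1)
    have hlt := nb_lt ⟨m, hm⟩ f j (x₀ j + 1) x₀ hx₀ hcr
    have hsq := hZ f j (x₀ j + 1)
    have hp := hmax _ (hcl (fdp j (x₀ j + 1)))
    have hq := hmax _ (hcl (fdm j (x₀ j + 1)))
    rw [hfZ] at hsq
    have hp0 := hZ0 (fun x => f (fdp j (x₀ j + 1) x))
    have hq0 := hZ0 (fun x => f (fdm j (x₀ j + 1) x))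
    have hpe : Z (fun x => f (fdp j (x₀ j + 1) x)) = Z f₀ := by
      refine le_antisymm hp ?_
      by_contra hne
      push Not at hne
      nlinarith
    have hqe : Z (fun x => f (fdm j (x₀ j + 1) x)) = Z f₀ := by
      refine le_antisymm hq ?_
      by_contra hne
      push Not at hne
      nlinarith
    have h1 := hfm _ (Finset.mem_filter.2 ⟨hcl _, hpe⟩)
    have h2 := hfm _ (Finset.mem_filter.2 ⟨hcl _, hqe⟩)
    omega

end Pool.Agent.H54.UDP
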